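import Mathlib

set_option autoImplicit false

namespace Pool.Agent.Results.MP_cc4673_an.LAtom

open Filter Topology

/-- Complex `n`-space. -/
abbrev Cn (n : ℕ) := EuclideanSpace ℂ (Fin n)

/-- `h` has the L-property on the sequence `z`. -/
def HasLProperty {n : ℕ} (h : Cn n → ℂ) (z : ℕ → Cn n) : Prop :=
  ∀ K : Set ℂ, IsCompact K → K ⊆ Set.range h → {k : ℕ | h (z k) ∈ K}.Finite

/-- `(f, g)` is an ordered L-pair. -/
def IsLPair {n : ℕ} (f g : Cn n → ℂ) : Prop :=
  ∀ z : ℕ → Cn n, Tendsto (fun k => ‖z k‖) atTop atTop → HasLProperty f z → HasLProperty g z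

/-- `α` is an L-atom. -/
def IsLAtom {n : ℕ} (α : Cn n → ℂ) : Prop :=
  Differentiable ℂ α ∧ (∃ z w, α z ≠ α w) ∧
    ∀ f : Cn n → ℂ, Differentiable ℂ f → IsLPair f α →
      ∃ φ : ℂ → ℂ, DifferentiableOn ℂ φ (Set.range α) ∧ f = φ ∘ α

/-- `F` is an analytic automorphism of complex `n`-space. -/
def IsAut {n : ℕ} (F : Cn n → Cn n) : Prop :=
  Differentiable ℂ F ∧ Function.Bijective F

/-- The point `(a, b)`. -/
noncomputable def pt (a b : ℂ) : Cn 2 := !₂[a, b]

lemma pt_diff {a b : ℂ → ℂ} (ha : Differentiable ℂ a) (hb : Differentiable ℂ b) :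
    Differentiable ℂ (fun t => pt (a t) (b t)) := by
  rw [differentiable_euclidean]
  intro i
  fin_cases i
  · simpa [pt] using ha
  · simpa [pt] using hb

lemma pt_eta (z : Cn 2) : pt (z 0) (z 1) = z := by
  ext i; fin_cases i <;> simp [pt]

lemma bounded {f : Cn 2 → ℂ} (hf : Differentiable ℂ f)
    (hp : IsLPair f (fun z : Cn 2 => z 0 * z 1)) (c : ℂ) :
    ∃ M : ℝ, ∀ z : Cn 2, z 0 * z 1 = c → ‖f z‖ ≤ M := by
  by_contra hc
  push Not at hc
  choose z hz hzf using fun k : ℕ => hc k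
  have h1 : Tendsto (fun k => ‖z k‖) atTop atTop := by
    rw [tendsto_atTop]
    intro R
    obtain ⟨B, hB⟩ := (isCompact_closedBall (0 : Cn 2) R).exists_bound_of_continuousOn
      hf.continuous.continuousOn
    obtain ⟨N, hN⟩ := exists_nat_ge B
    filter_upwards [eventually_ge_atTop N] with k hk
    by_contra hlt
    have h2 := hB (z k) (by simpa using (not_le.mp hlt).le)
    have h3 : (N : ℝ) ≤ k := by exact_mod_cast hk
    linarith [hzf k]
  have h2 : HasLProperty f z := by
    intro K hK _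
    obtain ⟨B, hB⟩ := hK.isBounded.exists_norm_le
    obtain ⟨N, hN⟩ := exists_nat_ge B
    refine (Set.finite_le_nat N).subset ?_
    intro k hk
    have h3 := hB _ hk
    have h4 : (k : ℝ) ≤ N := by linarith [hzf k]
    exact_mod_cast h4
  have h3 := hp z h1 h2 {c} isCompact_singleton (by
    intro x _
    exact ⟨pt 1 x, by simp [pt]⟩)
  have h4 : {k : ℕ | (fun z : Cn 2 => z 0 * z 1) (z k) ∈ ({c} : Set ℂ)} = Set.univ := by
    ext k; simp [hz k]
  rw [h4] at h3
  exact Set.infinite_univ h3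

lemma const_of {f : Cn 2 → ℂ} (hf : Differentiable ℂ f)
    (hp : IsLPair f (fun z : Cn 2 => z 0 * z 1)) (c : ℂ) {a b : ℂ → ℂ}
    (ha : Differentiable ℂ a) (hb : Differentiable ℂ b) (hab : ∀ t, a t * b t = c) (s t : ℂ) :
    f (pt (a s) (b s)) = f (pt (a t) (b t)) := by
  obtain ⟨M, hM⟩ := bounded hf hp c
  refine Differentiable.apply_eq_apply_of_bounded (f := fun t => f (pt (a t) (b t)))
    (hf.comp (pt_diff ha hb)) ?_ s t
  rw [isBounded_iff_forall_norm_le]
  refine ⟨M, ?_⟩
  rintro _ ⟨t, rfl⟩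
  exact hM _ (by simpa [pt] using hab t)

lemma atom : IsLAtom (fun z : Cn 2 => z 0 * z 1) := by
  refine ⟨by fun_prop, ⟨pt 1 1, pt 0 0, by simp [pt]⟩, ?_⟩
  intro f hf hp
  refine ⟨fun c => f (pt 1 c),
    (hf.comp (pt_diff (differentiable_const 1) differentiable_id)).differentiableOn, ?_⟩
  funext z
  simp only [Function.comp]
  by_cases h0 : z 0 = 0
  · have h1 := const_of hf hp 0 (a := fun _ => 0) (b := fun t => t) (by fun_prop) (by fun_prop)
      (by simp) (z 1) 0
    have h2 := const_of hf hp 0 (a := fun t => t) (b := fun _ => 0) (by fun_prop) (by fun_prop)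
      (by simp) 0 1
    rw [← pt_eta z, h0, h1, h2]
    simp [pt]
  · have h1 := const_of hf hp (z 0 * z 1) (a := fun t => Complex.exp t)
      (b := fun t => z 0 * z 1 * Complex.exp (-t)) (by fun_prop) (by fun_prop)
      (by
        intro t
        rw [Complex.exp_neg]
        field_simp) (Complex.log (z 0)) 0
    simp only [Complex.exp_neg, Complex.exp_log h0, Complex.exp_zero, inv_one, mul_one] at h1
    rw [← h1]
    have : z 0 * z 1 * (z 0)⁻¹ = z 1 := by field_simp
    rw [this, pt_eta]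

lemma nhds_of_inj {g : ℂ → ℂ} (hg : Differentiable ℂ g) (hi : Function.Injective g) :
    Set.range g ∈ 𝓝 (g 0) := by
  rcases (hg.differentiableOn.analyticOnNhd isOpen_univ).is_constant_or_isOpen
    isPreconnected_univ with h | h
  · obtain ⟨w, hw⟩ := h
    have := hi ((hw 0 trivial).trans (hw 1 trivial).symm)
    simp at this
  · have := h Set.univ subset_rfl isOpen_univ
    rw [Set.image_univ] at this
    exact this.mem_nhds ⟨0, rfl⟩

lemma not_coord : ¬ ∃ F : Cn 2 → Cn 2, IsAut F ∧ ∀ z, F z 0 = z 0 * z 1 := by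
  rintro ⟨F, ⟨hF, hi, -⟩, h0⟩
  have key : ∀ z w : Cn 2, z 0 * z 1 = w 0 * w 1 → F z 1 = F w 1 → z = w := by
    intro z w h1 h2
    apply hi
    ext i
    fin_cases i
    · simpa [h0] using h1
    · simpa using h2
  have hF1 : Differentiable ℂ (fun z => F z 1) := differentiable_euclidean.mp hF 1
  have ha := nhds_of_inj (g := fun t => F (pt t 0) 1)
    (hF1.comp (pt_diff differentiable_id (differentiable_const 0))) (by
      intro s t hst
      have := key _ _ (by simp [pt]) hst
      simpa [pt] using congrArg (fun z : Cn 2 => z 0) this)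
  have hb := nhds_of_inj (g := fun t => F (pt 0 t) 1)
    (hF1.comp (pt_diff (differentiable_const 0) differentiable_id)) (by
      intro s t hst
      have := key _ _ (by simp [pt]) hst
      simpa [pt] using congrArg (fun z : Cn 2 => z 1) this)
  have hc : ∀ᶠ w in 𝓝[≠] (F (pt 0 0) 1), w ∈ Set.range (fun t => F (pt t 0) 1) ∧
      w ∈ Set.range (fun t => F (pt 0 t) 1) :=
    nhdsWithin_le_nhds (inter_mem ha hb)
  obtain ⟨w, ⟨⟨s, hs⟩, ⟨t, ht⟩⟩, hw⟩ := (hc.and self_mem_nhdsWithin).exists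
  have h1 := key (pt s 0) (pt 0 t) (by simp [pt]) (hs.trans ht.symm)
  have h2 : s = 0 := by simpa [pt] using congrArg (fun z : Cn 2 => z 0) h1
  apply hw
  rw [← hs, h2]
  rfl

theorem result :
    IsLAtom (fun z : Cn 2 => z 0 * z 1) ∧
      ¬ ∃ F : Cn 2 → Cn 2, IsAut F ∧ ∀ z, F z 0 = z 0 * z 1 :=
  ⟨atom, not_coord⟩

end Pool.Agent.Results.MP_cc4673_an.LAtom
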